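import Pool.Agent.Y522.ML.Var

/-!
# Lagrangian submanifolds of the cotangent bundle of the torus which are one-sided with respect to
the fibre derivative of a function
-/

set_option autoImplicit false

open Set Filter Topology Metric Function
open scoped ContDiff RealInnerProductSpace

noncomputable section

namespace Pool.Agent.U145.ML

open Pool.Agent.Y522.ML

variable {n : ℕ}

/-- second differences -/
theorem second_diff {k : E n × E n → E n} (hk : ContDiff ℝ ∞ k) {L : ℝ}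
    (hL : ∀ w w', ‖fderiv ℝ k w - fderiv ℝ k w'‖ ≤ L * ‖w - w'‖) (x x' p p' : E n) :
    ‖(k (x, p) - k (x, p')) - (k (x', p) - k (x', p'))‖ ≤ L * ‖x - x'‖ * ‖p - p'‖ := by
  have hd : ∀ (y q : E n), HasFDerivAt (fun q => k (y, q))
      ((fderiv ℝ k (y, q)).comp (ContinuousLinearMap.inr ℝ (E n) (E n))) q := by
    intro y q
    have h1 : HasFDerivAt k (fderiv ℝ k (y, q)) (y, q) :=
      (hk.differentiable (by simp)).differentiableAt.hasFDerivAt
    exact h1.comp q (hasFDerivAt_prodMk_right y q)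
  have h2 := Convex.norm_image_sub_le_of_norm_hasFDerivWithin_le (𝕜 := ℝ) (s := univ)
    (f := fun q => k (x, q) - k (x', q))
    (f' := fun q => (fderiv ℝ k (x, q)).comp (ContinuousLinearMap.inr ℝ (E n) (E n)) -
      (fderiv ℝ k (x', q)).comp (ContinuousLinearMap.inr ℝ (E n) (E n))) (C := L * ‖x - x'‖)
    (fun q _ => ((hd x q).sub (hd x' q)).hasFDerivWithinAt)
    (fun q _ => by
      refine ContinuousLinearMap.opNorm_le_bound _ ?_ fun v => ?_
      · have h3 := hL (x, q) (x', q)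
        have h4 : ‖((x, q) : E n × E n) - (x', q)‖ = ‖x - x'‖ := by
          rw [Prod.norm_def]
          simp
        rw [h4] at h3
        exact (norm_nonneg _).trans h3
      · have h3 := hL (x, q) (x', q)
        have h4 : ‖((x, q) : E n × E n) - (x', q)‖ = ‖x - x'‖ := by
          rw [Prod.norm_def]
          simp
        rw [h4] at h3
        have h5 : ((fderiv ℝ k (x, q)).comp (ContinuousLinearMap.inr ℝ (E n) (E n)) -
            (fderiv ℝ k (x', q)).comp (ContinuousLinearMap.inr ℝ (E n) (E n))) v =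
            (fderiv ℝ k (x, q) - fderiv ℝ k (x', q)) ((0 : E n), v) := rfl
        rw [h5]
        refine (ContinuousLinearMap.le_opNorm _ _).trans ?_
        have h6 : ‖((0 : E n), v)‖ = ‖v‖ := by
          rw [Prod.norm_def]
          simp
        rw [h6]
        exact mul_le_mul_of_nonneg_right h3 (norm_nonneg _))
    convex_univ (mem_univ p') (mem_univ p)
  have h7 : (k (x, p) - k (x, p')) - (k (x', p) - k (x', p')) =
      (k (x, p) - k (x', p)) - (k (x, p') - k (x', p')) := by abel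
  rw [h7]
  exact h2

/-- closed Lagrangian submanifolds of `T*T^n` which are one-sided with respect to the fibre
derivative of a function are images of the zero section -/
theorem nonlin {Λ : Set (E n × E n)} (hΛ : LagT n Λ) (K₀ : E n × E n → ℝ)
    (hKs : ContDiff ℝ ∞ K₀) (hKp : ∀ w (k : Fin n → ℤ), K₀ (w.1 + latt k, w.2) = K₀ w)
    (κ : E n × E n → E n) (hκ : ∀ w a, ⟪κ w, a⟫ = fderiv ℝ K₀ w (0, a))
    {C b δ : ℝ} (hb : 0 < b) (hδ : 0 < δ)
    (hC : ∀ z ∈ Λ, ∀ z' ∈ Λ, ‖z.1 - z'.1‖ < δ →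
      -C * ‖z.1 - z'.1‖ ^ 2 ≤ ⟪z.1 - z'.1, κ (z.1, z.2) - κ (z.1, z'.2)⟫ ∧
      b * ‖z.2 - z'.2‖ ≤ ‖κ (z.1, z.2) - κ (z.1, z'.2)‖ + C * ‖z.1 - z'.1‖) :
    ∃ ψ : E n × E n ≃ E n × E n, ContDiff ℝ ∞ ψ ∧ ContDiff ℝ ∞ ψ.symm ∧
      (∀ z k, ψ (z.1 + latt k, z.2) = ((ψ z).1 + latt k, (ψ z).2)) ∧
      (∀ z a b, om (fderiv ℝ ψ z a) (fderiv ℝ ψ z b) = om a b) ∧ ψ '' {z | z.2 = 0} = Λ := by
  obtain ⟨R, hR⟩ := hΛ.bdd
  obtain ⟨z₀, hz₀⟩ := hΛ.nonempty
  have hR0 : 0 ≤ R := (norm_nonneg _).trans (hR _ hz₀)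
  let χ : ContDiffBump (0 : E n) := ⟨R + 1, R + 2, by linarith, by linarith⟩
  have hχs : ContDiff ℝ ∞ (χ : E n → ℝ) := χ.contDiff
  have hχ1 : ∀ p, ‖p‖ ≤ R + 1 → χ p = 1 := fun p hp =>
    χ.one_of_mem_closedBall (by rw [mem_closedBall_zero_iff]; exact hp)
  have hχ0 : ∀ p, R + 2 < ‖p‖ → χ p = 0 := fun p hp =>
    χ.zero_of_le_dist (by rw [dist_zero_right]; exact hp.le)
  -- the generating function
  obtain ⟨K, hKd⟩ : ∃ K : E n × E n → ℝ, K = fun w => χ w.2 * K₀ w := ⟨_, rfl⟩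
  have hK : ContDiff ℝ ∞ K := by
    rw [hKd]
    exact (hχs.comp contDiff_snd).mul hKs
  have hKv : ∀ w : E n × E n, R + 2 < ‖w.2‖ → K w = 0 := fun w hw => by
    rw [hKd]; simp only [hχ0 _ hw, zero_mul]
  obtain ⟨k₁, k₂, M, hM, s1, s2, hk, p1, p2, b1, b2, l1, l2⟩ := exists_grad K hK
    (fun w k => by rw [hKd]; simp only [hKp]) (R + 2) hKv
  have hk2 : ∀ x p, ‖p‖ ≤ R → k₂ (x, p) = κ (x, p) := by
    intro x p hp
    refine ext_inner_right ℝ fun a => ?_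
    have h1 : ⟪k₂ (x, p), a⟫ = fderiv ℝ K (x, p) (0, a) := by
      rw [hk]
      simp
    rw [h1, hκ]
    have h2 : K =ᶠ[𝓝 (x, p)] K₀ := by
      have h3 : ∀ᶠ w : E n × E n in 𝓝 (x, p), ‖w.2‖ < R + 1 := by
        have g1 : Continuous fun w : E n × E n => ‖w.2‖ := by fun_prop
        refine (g1.continuousAt (x := (x, p))).eventually (gt_mem_nhds ?_)
        show ‖p‖ < R + 1
        linarith
      filter_upwards [h3] with w hw
      rw [hKd]
      simp only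
      rw [hχ1 _ hw.le, one_mul]
    rw [h2.fderiv_eq]
  -- the second derivative
  have hO : IsOpen {w : E n × E n | R + 2 < ‖w.2‖} :=
    isOpen_lt continuous_const (continuous_snd.norm)
  have hk0 : ∀ w : E n × E n, R + 2 < ‖w.2‖ → k₂ w = 0 := by
    intro w hw
    refine ext_inner_right ℝ fun a => ?_
    have h1 : ⟪k₂ w, a⟫ = fderiv ℝ K w (0, a) := by
      rw [hk]
      simp
    have h2 : K =ᶠ[𝓝 w] fun _ => 0 := by
      filter_upwards [hO.mem_nhds hw] with y hy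
      exact hKv y hy
    rw [h1, h2.fderiv_eq]
    simp
  have hk0' : ∀ w : E n × E n, R + 2 < ‖w.2‖ → fderiv ℝ k₂ w = 0 := by
    intro w hw
    have h2 : k₂ =ᶠ[𝓝 w] fun _ => 0 := by
      filter_upwards [hO.mem_nhds hw] with y hy
      exact hk0 y hy
    rw [h2.fderiv_eq]
    simp
  have hk0'' : ∀ w : E n × E n, R + 2 < ‖w.2‖ → fderiv ℝ (fderiv ℝ k₂) w = 0 := by
    intro w hw
    have h2 : fderiv ℝ k₂ =ᶠ[𝓝 w] fun _ => 0 := by
      filter_upwards [hO.mem_nhds hw] with y hy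
      exact hk0' y hy
    rw [h2.fderiv_eq]
    simp
  have htr : ∀ (w : E n × E n) (k : Fin n → ℤ), w + (latt k, 0) = (w.1 + latt k, w.2) := by
    intro w k
    refine Prod.ext rfl ?_
    simp
  have hD1 : ContDiff ℝ ∞ (fderiv ℝ k₂) := s2.fderiv_right (by simp)
  have hD2 : ContDiff ℝ ∞ (fderiv ℝ (fderiv ℝ k₂)) := hD1.fderiv_right (by simp)
  have hper1 : ∀ w (k : Fin n → ℤ), fderiv ℝ k₂ (w.1 + latt k, w.2) = fderiv ℝ k₂ w := by
    intro w k
    have h1 : (fun y => k₂ (y + (latt k, 0))) = k₂ := funext fun y => by rw [htr, p2]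
    have h2 := fderiv_comp_add_right (𝕜 := ℝ) (f := k₂) (x := w) ((latt k, 0) : E n × E n)
    rw [h1, htr] at h2
    exact h2.symm
  have hper2 : ∀ w (k : Fin n → ℤ), fderiv ℝ (fderiv ℝ k₂) (w.1 + latt k, w.2) =
      fderiv ℝ (fderiv ℝ k₂) w := by
    intro w k
    have h1 : (fun y => fderiv ℝ k₂ (y + (latt k, 0))) = fderiv ℝ k₂ :=
      funext fun y => by rw [htr, hper1]
    have h2 := fderiv_comp_add_right (𝕜 := ℝ) (f := fderiv ℝ k₂) (x := w)
      ((latt k, 0) : E n × E n)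
    rw [h1, htr] at h2
    exact h2.symm
  obtain ⟨L, hL, hLb⟩ := bddper (n := n) (fderiv ℝ (fderiv ℝ k₂)) hD2.continuous hper2 (R + 2)
    hk0''
  have hLip : ∀ w w', ‖fderiv ℝ k₂ w - fderiv ℝ k₂ w'‖ ≤ L * ‖w - w'‖ := by
    intro w w'
    exact Convex.norm_image_sub_le_of_norm_fderiv_le (𝕜 := ℝ) (s := univ) (fun x _ =>
      (hD1.differentiable (by simp)).differentiableAt) (fun x _ => hLb x)
      convex_univ (mem_univ _) (mem_univ _)
  -- the constants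
  obtain ⟨C', hC'⟩ : ∃ C' : ℝ, C' = max C 0 + (2 * M) / δ + b * (2 * R) / δ := ⟨_, rfl⟩
  have hc1 : 0 ≤ (2 * M) / δ := by positivity
  have hc2 : 0 ≤ b * (2 * R) / δ := by positivity
  have hc3 : C ≤ C' := by rw [hC']; linarith [le_max_left C 0]
  have hc4 : 0 ≤ C' := by rw [hC']; linarith [le_max_right C 0]
  have hc5 : (2 * M) / δ ≤ C' := by rw [hC']; linarith [le_max_right C 0]
  have hc6 : b * (2 * R) / δ ≤ C' := by rw [hC']; linarith [le_max_right C 0]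
  have hglob : ∀ z ∈ Λ, ∀ z' ∈ Λ,
      -C' * ‖z.1 - z'.1‖ ^ 2 ≤ ⟪z.1 - z'.1, k₂ (z.1, z.2) - k₂ (z.1, z'.2)⟫ ∧
      b * ‖z.2 - z'.2‖ ≤ ‖k₂ (z.1, z.2) - k₂ (z.1, z'.2)‖ + C' * ‖z.1 - z'.1‖ := by
    intro z hz z' hz'
    have hn : 0 ≤ ‖z.1 - z'.1‖ ^ 2 := by positivity
    have hn' : 0 ≤ ‖z.1 - z'.1‖ := norm_nonneg _
    rcases lt_or_ge ‖z.1 - z'.1‖ δ with h1 | h1
    · obtain ⟨h2, h3⟩ := hC z hz z' hz' h1
      rw [hk2 _ _ (hR z hz), hk2 _ _ (hR z' hz')]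
      exact ⟨by nlinarith, by nlinarith⟩
    · have h4 : ‖z.2 - z'.2‖ ≤ 2 * R := by
        refine (norm_sub_le _ _).trans ?_
        linarith [hR z hz, hR z' hz']
      have hdiv : ∀ c : ℝ, 0 ≤ c → c ≤ (c / δ) * ‖z.1 - z'.1‖ := by
        intro c hc
        have g1 : (c / δ) * δ = c := by field_simp
        calc c = (c / δ) * δ := g1.symm
          _ ≤ _ := mul_le_mul_of_nonneg_left h1 (by positivity)
      constructor
      · have h3 : |⟪z.1 - z'.1, k₂ (z.1, z.2) - k₂ (z.1, z'.2)⟫| ≤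
            ‖z.1 - z'.1‖ * ‖k₂ (z.1, z.2) - k₂ (z.1, z'.2)‖ :=
          abs_real_inner_le_norm _ _
        have h5 : ‖k₂ (z.1, z.2) - k₂ (z.1, z'.2)‖ ≤ 2 * M := by
          refine (norm_sub_le _ _).trans ?_
          linarith [b2 (z.1, z.2), b2 (z.1, z'.2)]
        have h6 : ‖z.1 - z'.1‖ * ‖k₂ (z.1, z.2) - k₂ (z.1, z'.2)‖ ≤ ‖z.1 - z'.1‖ * (2 * M) :=
          mul_le_mul_of_nonneg_left h5 (norm_nonneg _)
        have h7 := mul_le_mul_of_nonneg_left (hdiv (2 * M) (by positivity)) hn'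
        have h8 : ((2 * M) / δ) * ‖z.1 - z'.1‖ ^ 2 ≤ C' * ‖z.1 - z'.1‖ ^ 2 :=
          mul_le_mul_of_nonneg_right hc5 hn
        have h9 := (abs_le.1 h3).1
        nlinarith
      · have h3 : b * ‖z.2 - z'.2‖ ≤ b * (2 * R) := mul_le_mul_of_nonneg_left h4 hb.le
        have h5 := hdiv (b * (2 * R)) (by positivity)
        have h6 : (b * (2 * R) / δ) * ‖z.1 - z'.1‖ ≤ C' * ‖z.1 - z'.1‖ :=
          mul_le_mul_of_nonneg_right hc6 hn'
        linarith [norm_nonneg (k₂ (z.1, z.2) - k₂ (z.1, z'.2))]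
  obtain ⟨T, hT⟩ : ∃ T : ℝ, T = 2 * M + 4 * C' + 4 * (L * M) / b + 1 := ⟨_, rfl⟩
  have hLM : 0 ≤ 4 * (L * M) / b := by positivity
  have hT0 : 0 < T := by rw [hT]; positivity
  obtain ⟨t, htd⟩ : ∃ t : ℝ, t = 1 / T := ⟨_, rfl⟩
  have ht : 0 < t := by rw [htd]; positivity
  have htT : t * T = 1 := by rw [htd]; field_simp
  have htM : t * M ≤ 1 / 2 := by
    have h1 : t * (2 * M) ≤ t * T := mul_le_mul_of_nonneg_left (by rw [hT]; linarith) ht.le
    linarith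
  have htC : 4 * t * C' ≤ 1 := by
    have h1 : t * (4 * C') ≤ t * T := mul_le_mul_of_nonneg_left (by rw [hT]; linarith) ht.le
    linarith
  have htL : 4 * t * (L * M) ≤ b := by
    have h1 : t * (4 * (L * M) / b) ≤ t * T := mul_le_mul_of_nonneg_left (by rw [hT]; linarith) ht.le
    rw [htT] at h1
    have h2 := mul_le_mul_of_nonneg_right h1 hb.le
    have h3 : t * (4 * (L * M) / b) * b = 4 * t * (L * M) := by field_simp
    linarith
  obtain ⟨Φ, P1, P2, P3, P4, P5⟩ := exists_gen K hK s1 s2 hk p1 p2 l1 l2 ht.le htM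
  -- the estimate
  have hest : ∀ z ∈ Λ, ∀ z' ∈ Λ,
      t * b / (t * b + 16) * ‖Φ z - Φ z'‖ ≤ ‖(Φ z).1 - (Φ z').1‖ := by
    intro z hz z' hz'
    obtain ⟨w, w1, w2, w3⟩ := P5 z
    obtain ⟨w', w1', w2', w3'⟩ := P5 z'
    obtain ⟨g1, g2⟩ := hglob z hz z' hz'
    have hw : k₂ w = k₂ (w.1, z.2) := by rw [← w1]
    have hw' : k₂ (w.1, w'.2) = k₂ (w.1, z'.2) := by rw [w1']
    have hx : ‖w.1 - z.1‖ ≤ t * M := by
      rw [w2, add_sub_cancel_left, norm_smul, Real.norm_of_nonneg ht.le]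
      exact mul_le_mul_of_nonneg_left (b2 w) ht.le
    have e1 : z.1 - z'.1 + t • (k₂ (z.1, z.2) - k₂ (z.1, z'.2)) = (w.1 - w'.1) -
        (t • ((k₂ (w.1, z.2) - k₂ (w.1, z'.2)) - (k₂ (z.1, z.2) - k₂ (z.1, z'.2))) +
          t • (k₂ (w.1, w'.2) - k₂ w')) := by
      have h1 : z.1 = w.1 - t • k₂ w := by rw [w2]; abel
      have h2 : z'.1 = w'.1 - t • k₂ w' := by rw [w2']; abel
      have h4 : z.1 - z'.1 = (w.1 - t • k₂ w) - (w'.1 - t • k₂ w') := by rw [← h1, ← h2]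
      rw [h4, hw', hw]
      module
    have e2 : ‖z.1 - z'.1 + t • (k₂ (z.1, z.2) - k₂ (z.1, z'.2))‖ ≤ ‖w.1 - w'.1‖ +
        (t * (L * (t * M * ‖z.2 - z'.2‖)) + t * (M * ‖w.1 - w'.1‖)) := by
      rw [e1]
      refine (norm_sub_le _ _).trans (add_le_add le_rfl ((norm_add_le _ _).trans
        (add_le_add ?_ ?_)))
      · rw [norm_smul, Real.norm_of_nonneg ht.le]
        refine mul_le_mul_of_nonneg_left ?_ ht.le
        refine (second_diff s2 hLip w.1 z.1 z.2 z'.2).trans ?_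
        have h1 : L * ‖w.1 - z.1‖ ≤ L * (t * M) := mul_le_mul_of_nonneg_left hx hL
        calc L * ‖w.1 - z.1‖ * ‖z.2 - z'.2‖ ≤ L * (t * M) * ‖z.2 - z'.2‖ :=
              mul_le_mul_of_nonneg_right h1 (norm_nonneg _)
          _ = _ := by ring
      · rw [norm_smul, Real.norm_of_nonneg ht.le]
        refine mul_le_mul_of_nonneg_left ((l2 _ _).trans ?_) ht.le
        refine mul_le_mul_of_nonneg_left ?_ hM
        rw [Prod.norm_def]
        simp
    have e3 : 1 / 2 * ‖z.1 - z'.1‖ ^ 2 + t ^ 2 * ‖k₂ (z.1, z.2) - k₂ (z.1, z'.2)‖ ^ 2 ≤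
        ‖z.1 - z'.1 + t • (k₂ (z.1, z.2) - k₂ (z.1, z'.2))‖ ^ 2 := by
      have h1 : ‖z.1 - z'.1 + t • (k₂ (z.1, z.2) - k₂ (z.1, z'.2))‖ ^ 2 = ‖z.1 - z'.1‖ ^ 2 +
          2 * t * ⟪z.1 - z'.1, k₂ (z.1, z.2) - k₂ (z.1, z'.2)⟫ +
            t ^ 2 * ‖k₂ (z.1, z.2) - k₂ (z.1, z'.2)‖ ^ 2 := by
        rw [norm_add_sq_real, norm_smul, inner_smul_right, Real.norm_of_nonneg ht.le]
        ring
      rw [h1]
      have h3 : 2 * t * (-C' * ‖z.1 - z'.1‖ ^ 2) ≤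
          2 * t * ⟪z.1 - z'.1, k₂ (z.1, z.2) - k₂ (z.1, z'.2)⟫ :=
        mul_le_mul_of_nonneg_left g1 (by positivity)
      have h6 : 4 * t * C' * ‖z.1 - z'.1‖ ^ 2 ≤ 1 * ‖z.1 - z'.1‖ ^ 2 :=
        mul_le_mul_of_nonneg_right htC (by positivity)
      nlinarith
    have e4 : t * b * ‖z.2 - z'.2‖ ≤ 8 * ‖w.1 - w'.1‖ :=
      arith ht hb (norm_nonneg _) (norm_nonneg _) (norm_nonneg _) (norm_nonneg _) (norm_nonneg _)
        hc4 htM htC htL e2 e3 g2
    have e5 : ‖Φ z - Φ z'‖ ≤ ‖w.1 - w'.1‖ + 2 * ‖z.2 - z'.2‖ := by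
      rw [w3, w3', Prod.norm_def]
      refine max_le ?_ ?_
      · show ‖w.1 - w'.1‖ ≤ _
        linarith [norm_nonneg (z.2 - z'.2)]
      · show ‖w.2 - t • k₁ w - (w'.2 - t • k₁ w')‖ ≤ _
        have h1 : w.2 - t • k₁ w - (w'.2 - t • k₁ w') = (z.2 - z'.2) - t • (k₁ w - k₁ w') := by
          rw [w1, w1', smul_sub]
          abel
        rw [h1]
        refine (norm_sub_le _ _).trans ?_
        rw [norm_smul, Real.norm_of_nonneg ht.le]
        have h2 : ‖w - w'‖ ≤ ‖w.1 - w'.1‖ + ‖z.2 - z'.2‖ := by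
          rw [Prod.norm_def]
          refine max_le ?_ ?_
          · show ‖w.1 - w'.1‖ ≤ _
            linarith [norm_nonneg (z.2 - z'.2)]
          · show ‖w.2 - w'.2‖ ≤ _
            rw [w1, w1']
            linarith [norm_nonneg (w.1 - w'.1)]
        have h3 : t * ‖k₁ w - k₁ w'‖ ≤ 1 / 2 * ‖w - w'‖ := by
          calc t * ‖k₁ w - k₁ w'‖ ≤ t * (M * ‖w - w'‖) := mul_le_mul_of_nonneg_left (l1 _ _) ht.le
            _ = (t * M) * ‖w - w'‖ := by ring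
            _ ≤ _ := mul_le_mul_of_nonneg_right htM (norm_nonneg _)
        linarith [norm_nonneg (w.1 - w'.1), norm_nonneg (z.2 - z'.2)]
    have e6 : (Φ z).1 - (Φ z').1 = w.1 - w'.1 := by rw [w3, w3']
    rw [e6, div_mul_eq_mul_div, div_le_iff₀ (by positivity)]
    have h7 : t * b * ‖Φ z - Φ z'‖ ≤ t * b * (‖w.1 - w'.1‖ + 2 * ‖z.2 - z'.2‖) :=
      mul_le_mul_of_nonneg_left e5 (by positivity)
    nlinarith
  have hlag : LagT n (Φ '' Λ) := by
    refine push hΛ Φ P1 P2 P3 P4 ⟨R + t * M, fun z hz => ?_⟩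
    obtain ⟨w, w1, w2, w3⟩ := P5 z
    rw [w3]
    refine (norm_sub_le _ _).trans (add_le_add (by rw [w1]; exact hR z hz) ?_)
    rw [norm_smul, Real.norm_of_nonneg ht.le]
    exact mul_le_mul_of_nonneg_left (b1 w) ht.le
  obtain ⟨ψ, q1, q2, q3, q4, q5⟩ := main hlag (fun _ => 0) contDiff_const
    (fun p v w => by simp) (c := t * b / (t * b + 16)) (by positivity) (by
      rintro _ ⟨z, hz, rfl⟩ _ ⟨z', hz', rfl⟩
      simp only [add_zero]
      exact hest z hz z' hz')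
  have P3' : ∀ z (k : Fin n → ℤ),
      Φ.symm (z.1 + latt k, z.2) = ((Φ.symm z).1 + latt k, (Φ.symm z).2) := by
    intro z k
    rw [Equiv.symm_apply_eq, P3]
    simp
  have hdΦ : ∀ y a, fderiv ℝ Φ (Φ.symm y) (fderiv ℝ Φ.symm y a) = a := by
    intro y a
    have f1 : HasFDerivAt Φ (fderiv ℝ Φ (Φ.symm y)) (Φ.symm y) :=
      (P1.differentiable (by simp)).differentiableAt.hasFDerivAt
    have f3 : HasFDerivAt Φ.symm (fderiv ℝ Φ.symm y) y :=
      (P2.differentiable (by simp)).differentiableAt.hasFDerivAt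
    have f5 : HasFDerivAt (fun y => Φ (Φ.symm y))
        ((fderiv ℝ Φ (Φ.symm y)).comp (fderiv ℝ Φ.symm y)) y := f1.comp y f3
    have f6 : (fun y => Φ (Φ.symm y)) = id := by
      funext y
      simp
    rw [f6] at f5
    exact congrArg (fun L : E n × E n →L[ℝ] E n × E n => L a) (f5.unique (hasFDerivAt_id y))
  refine ⟨ψ.trans Φ.symm, P2.comp q1, q2.comp P1, fun z k => ?_, fun z a b => ?_, ?_⟩
  · show Φ.symm (ψ (z.1 + latt k, z.2)) = ((Φ.symm (ψ z)).1 + latt k, (Φ.symm (ψ z)).2)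
    rw [q3, P3']
  · have f1 : HasFDerivAt ψ (fderiv ℝ ψ z) z :=
      (q1.differentiable (by simp)).differentiableAt.hasFDerivAt
    have f2 : HasFDerivAt Φ.symm (fderiv ℝ Φ.symm (ψ z)) (ψ z) :=
      (P2.differentiable (by simp)).differentiableAt.hasFDerivAt
    have f3 : fderiv ℝ (ψ.trans Φ.symm) z = (fderiv ℝ Φ.symm (ψ z)).comp (fderiv ℝ ψ z) :=
      (f2.comp z f1).fderiv
    rw [f3]
    show om (fderiv ℝ Φ.symm (ψ z) (fderiv ℝ ψ z a)) (fderiv ℝ Φ.symm (ψ z) (fderiv ℝ ψ z b)) = _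
    rw [← P4 (Φ.symm (ψ z)), hdΦ, hdΦ, q4]
  · rw [Equiv.coe_trans, image_comp, q5, ← image_comp, Equiv.symm_comp_self, image_id]

end Pool.Agent.U145.ML
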